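import Pool.Agent.H37.UMD.Stmts

set_option autoImplicit false

open MeasureTheory ProbabilityTheory

namespace Pool.UMD

theorem MMU_sq_g1 : ∫ x, x ^ 2 ∂g1 = 1 := by
  have h1 : Var[fun x : ℝ => x; gaussianReal 0 1] = 1 := by
    simp
  rw [variance_eq_integral (by fun_prop)] at h1
  simpa [integral_id_gaussianReal] using h1

theorem MMU_int_abs_g1 : Integrable (fun x : ℝ => |x|) g1 := by
  have h := (memLp_id_gaussianReal (μ := 0) (v := 1) 1)
  have h2 : Integrable (id : ℝ → ℝ) g1 := memLp_one_iff_integrable.mp (by simpa using h)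
  exact h2.abs

theorem MMU_int_sq_g1 : Integrable (fun x : ℝ => x ^ 2) g1 := by
  have h := (memLp_id_gaussianReal (μ := 0) (v := 1) 2)
  have h2 : MemLp (id : ℝ → ℝ) 2 g1 := by simpa using h
  exact h2.integrable_sq

theorem MMU_abs_g1 : ∫ x, |x| ∂g1 ≤ 1 := by
  have h1 : ∫ x, |x| ∂g1 ≤ ∫ x, (1 / 2 + 1 / 2 * x ^ 2) ∂g1 := by
    refine integral_mono MMU_int_abs_g1 ?_ (fun x => ?_)
    · exact (integrable_const _).add (MMU_int_sq_g1.const_mul _)
    · show |x| ≤ 1 / 2 + 1 / 2 * x ^ 2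
      nlinarith [sq_nonneg (|x| - 1), sq_abs x]
  have h2 : ∫ x, (1 / 2 + 1 / 2 * x ^ 2) ∂g1 = 1 := by
    rw [integral_add (integrable_const _) (MMU_int_sq_g1.const_mul _), integral_const_mul, MMU_sq_g1]
    simp
    norm_num
  linarith

theorem MMU_meas_ap (A : Mat) :
    Measurable (fun q : (ℝ × ℝ) × (ℝ × ℝ) => q.1 + A.ap q.2) := by
  unfold Mat.ap
  fun_prop

theorem sMmu : SMmu := by
  intro f M hf A
  obtain ⟨hfm, hfb⟩ := hf
  have hM : 0 ≤ M := (abs_nonneg _).trans (hfb 0)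
  have m0 : Measurable (fun q : (ℝ × ℝ) × (ℝ × ℝ) => f (q.1 + A.ap q.2)) :=
    hfm.comp (MMU_meas_ap A)
  have m1 : Measurable (fun q : (ℝ × ℝ) × (ℝ × ℝ) => q.2.1 * f (q.1 + A.ap q.2)) :=
    (measurable_fst.comp measurable_snd).mul m0
  have m2 : Measurable (fun q : (ℝ × ℝ) × (ℝ × ℝ) => q.2.2 * f (q.1 + A.ap q.2)) :=
    (measurable_snd.comp measurable_snd).mul m0
  have i1 : Integrable (fun z : ℝ × ℝ => |z.1|) g2 := MMU_int_abs_g1.comp_fst g1
  have i2 : Integrable (fun z : ℝ × ℝ => |z.2|) g2 := MMU_int_abs_g1.comp_snd g1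
  have e1 : ∫ z : ℝ × ℝ, |z.1| ∂g2 ≤ 1 := by
    have := integral_fun_fst (μ := g1) (ν := g1) (fun x : ℝ => |x|)
    rw [this]
    simpa using MMU_abs_g1
  have e2 : ∫ z : ℝ × ℝ, |z.2| ∂g2 ≤ 1 := by
    have := integral_fun_snd (μ := g1) (ν := g1) (fun x : ℝ => |x|)
    rw [this]
    simpa using MMU_abs_g1
  refine ⟨⟨?_, fun a => ?_⟩, ⟨?_, fun a => ?_⟩, ⟨?_, fun a => ?_⟩⟩
  · exact (m0.stronglyMeasurable.integral_prod_right').measurable
  · have := norm_integral_le_of_norm_le_const (μ := g2) (f := fun z => f (a + A.ap z)) (C := M)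
      (Filter.Eventually.of_forall (fun z => hfb _))
    simpa [mu] using this
  · exact (m1.stronglyMeasurable.integral_prod_right').measurable
  · show |∫ z : ℝ × ℝ, z.1 * f (a + A.ap z) ∂g2| ≤ M
    have h1 : ‖∫ z : ℝ × ℝ, z.1 * f (a + A.ap z) ∂g2‖ ≤ ∫ z : ℝ × ℝ, |z.1| * M ∂g2 := by
      refine norm_integral_le_of_norm_le (i1.mul_const M) (Filter.Eventually.of_forall (fun z => ?_))
      rw [Real.norm_eq_abs, abs_mul]
      exact mul_le_mul_of_nonneg_left (hfb _) (abs_nonneg _)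
    rw [integral_mul_const] at h1
    have h2 : (∫ z : ℝ × ℝ, |z.1| ∂g2) * M ≤ 1 * M := mul_le_mul_of_nonneg_right e1 hM
    rw [Real.norm_eq_abs] at h1
    linarith
  · exact (m2.stronglyMeasurable.integral_prod_right').measurable
  · show |∫ z : ℝ × ℝ, z.2 * f (a + A.ap z) ∂g2| ≤ M
    have h1 : ‖∫ z : ℝ × ℝ, z.2 * f (a + A.ap z) ∂g2‖ ≤ ∫ z : ℝ × ℝ, |z.2| * M ∂g2 := by
      refine norm_integral_le_of_norm_le (i2.mul_const M) (Filter.Eventually.of_forall (fun z => ?_))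
      rw [Real.norm_eq_abs, abs_mul]
      exact mul_le_mul_of_nonneg_left (hfb _) (abs_nonneg _)
    rw [integral_mul_const] at h1
    have h2 : (∫ z : ℝ × ℝ, |z.2| ∂g2) * M ≤ 1 * M := mul_le_mul_of_nonneg_right e2 hM
    rw [Real.norm_eq_abs] at h1
    linarith

end Pool.UMD
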